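import Pool.Agent.H2.MkE

open Pool.Agent.H2.Mk

namespace Pool.Agent.Results.MP_8da836_an.BallYes

/-- Affine Baire-one maps into the unit ball are limits of continuous affine maps into the
unit ball. -/
theorem result {𝕜 V E : Type*} [RCLike 𝕜] [AddCommGroup V] [Module ℝ V] [TopologicalSpace V]
    [IsTopologicalAddGroup V] [ContinuousSMul ℝ V] [LocallyConvexSpace ℝ V] [T2Space V]
    [NormedAddCommGroup E] [NormedSpace 𝕜 E] [NormedSpace ℝ E] [IsScalarTower ℝ 𝕜 E]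
    [CompleteSpace E] (hE : HasBAP 𝕜 E ∨ HasAP 𝕜 E) (X : Set V) (hXc : IsCompact X)
    (hXv : Convex ℝ X) (f : X → E) (haff : IsAff X f)
    (hf : f ∈ C1 X (Metric.closedBall (0 : E) 1)) :
    f ∈ A1 X (Metric.closedBall (0 : E) 1) := by
  obtain ⟨hb, g, hg, hl⟩ := hf
  have hE' : HasAP 𝕜 E := hE.elim HasBAP.hasAP id
  obtain ⟨a, ha, hal⟩ := main hE'.finAP hXc hXv haff (fun n => (hg n).1) hl one_pos
    fun x => mem_closedBall_zero_iff.1 (hb x)
  exact ⟨hb, a, fun n => ⟨(ha n).1, (ha n).2.1,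
    fun x => mem_closedBall_zero_iff.2 ((ha n).2.2 x)⟩, hal⟩

end Pool.Agent.Results.MP_8da836_an.BallYes
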